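import Pool.Agent.L5helper12.ESb

/-!
# The Tauberian Tate conjecture for almost all elliptic surfaces over a number field

Let `K` be a number field and `ω_0, ..., ω_(g-1)` elements of its ring of integers such that `1` is a linear combination of them with
integral coefficients, for instance an integral basis. Let `V` be the elliptic surface over `K` with the Weierstrass equation

  `y ^ 2 = x ^ 3 + A(t) x + B(t)`, `A = ∑ a_k t ^ k`, `k ≤ 4 N`, `B = ∑ b_k t ^ k`, `k ≤ 6 N`

over the projective line (rational surfaces for `N = 1`, K3 surfaces for `N = 2`). The coefficients are `c = ∑ m_j ω_j`. Here the numbers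
`m` are, for example, the integral parts of

* `ξ g(t) + c(t)` for any real sequences `g` with `g(t + 1) - g(t) ≥ t ^ (ρ - 1)` (for instance `t`, `t ^ 2`, `√t`,
  `2 ^ t`, `t !`, the primes) and any real sequences `c`, for almost all real vectors `ξ`, or
* `ξ ^ g(t) + c(t)` with strictly increasing integers `g(t)`, for almost all vectors `ξ` with coordinates `> 1`,

and so for almost all members of all families of twice continuously differentiable functions whose derivatives are separated
(`Spread`). There is one parameter `t` only, and the sequences can grow arbitrarily fast.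

The rank of `NS(V/K)` is `2` for a general surface of this kind: it is generated by a fibre and the zero section (for `N ≥ 2` this is
the geometric rank). By the formula of Shioda and Tate the rank of `NS(V/K)` is `2` plus the rank of the group of the points of the
generic fibre over `K(t)` if all fibres are irreducible, which is the case if the Weierstrass model is smooth. So this is also the
analytic form of Nagao's conjecture for almost all elliptic curves over `K(t)`.

For a prime ideal `v` of good reduction (smooth Weierstrass model) let `b_v` be the trace of the Frobenius automorphism on `H ^ 2(V)`,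
and `q_v` the absolute norm of `v`. By Deligne's theorem `|b_v| ≤ b_2(V) q_v`, so that `|b_v - 2 q_v| ≤ q_v ^ (1 + η)` if `q_v` is
larger than a number which depends only on `N` and `η > 0`.

Method: the character sums over the fibres are bounded by Weil's theorem (library `Pool.Agent.H341R2`); the sums over `h - 1 ≤ 6 N`
fibres can be moved independently, which bounds the `h`-th moment of `b_v / q_v - 2` over the surfaces over a finite prime field;
high moments over well distributed sequences (`Pool.Agent.N54.MW.genVT`, after helper647 and helper668).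
-/

set_option autoImplicit false

namespace Pool.Agent.Results.MP_4589ac_nt.EllipticSurfaces

open Finset NumberField IsDedekindDomain Filter MeasureTheory

/-- The indices of the coefficients of `A` and `B`. -/
abbrev Index (N : ℕ) : Type := Fin (4 * N + 1) ⊕ Fin (6 * N + 1)

/-- The coefficients `c_s = ∑ m_(s,j) ω_j`. -/
def coeff {R : Type} [CommRing R] {g D : ℕ} (ω : Fin g → R) (m : Fin (D * g) → ℕ) (s : Fin D) : R :=
  ∑ j, (m (finProdFinEquiv (s, j)) : R) * ω j

section
variable {N D : ℕ} (e : Fin D ≃ Index N)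

/-- The polynomial `A` over the field `κ`, where `e` is an enumeration of the indices. -/
noncomputable def polyA {κ : Type} [Field κ] (u : Fin D → κ) : Polynomial κ :=
  ∑ k : Fin (4 * N + 1), Polynomial.C (u (e.symm (Sum.inl k))) * Polynomial.X ^ (k : ℕ)

/-- The polynomial `B`. -/
noncomputable def polyB {κ : Type} [Field κ] (u : Fin D → κ) : Polynomial κ :=
  ∑ k : Fin (6 * N + 1), Polynomial.C (u (e.symm (Sum.inr k))) * Polynomial.X ^ (k : ℕ)

/-- The value of a polynomial of degree at most `n` at the point `t` of the projective line, which consists of the elements of `κ` and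
of the point `none` at infinity; there the value of `∑ p_k t ^ k` is `p_n`. -/
noncomputable def value {κ : Type} [Field κ] (n : ℕ) (P : Polynomial κ) : Option κ → κ
  | some t => P.eval t
  | none => P.coeff n

/-- The number of the points of the Weierstrass cubic curve over the point `t` of the line. -/
noncomputable def fibre (κ : Type) [Field κ] (u : Fin D → κ) (t : Option κ) : ℝ :=
  (Nat.card {P : κ × κ // P.2 ^ 2 = P.1 ^ 3 + value (4 * N) (polyA e u) t * P.1 + value (6 * N) (polyB e u) t} : ℝ) + 1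

/-- The number of the points of the surface over the finite field `κ`. -/
noncomputable def points (κ : Type) [Field κ] (u : Fin D → κ) : ℝ := ∑ᶠ t : Option κ, fibre e κ u t

/-- The characteristic of `κ` is not two and the surface has no singular points, neither over the points `t` of the affine line nor
over infinity. -/
def Smooth (κ : Type) [Field κ] (u : Fin D → κ) : Prop :=
  (2 : κ) ≠ 0 ∧
  (¬ ∃ t x : AlgebraicClosure κ,
    x ^ 3 + Polynomial.aeval t (polyA e u) * x + Polynomial.aeval t (polyB e u) = 0 ∧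
    3 * x ^ 2 + Polynomial.aeval t (polyA e u) = 0 ∧
    Polynomial.aeval t (Polynomial.derivative (polyA e u)) * x + Polynomial.aeval t (Polynomial.derivative (polyB e u)) = 0) ∧
  (¬ ∃ x : AlgebraicClosure κ,
    x ^ 3 + algebraMap κ _ ((polyA e u).coeff (4 * N)) * x + algebraMap κ _ ((polyB e u).coeff (6 * N)) = 0 ∧
    3 * x ^ 2 + algebraMap κ _ ((polyA e u).coeff (4 * N)) = 0 ∧
    algebraMap κ _ ((polyA e u).coeff (4 * N - 1)) * x + algebraMap κ _ ((polyB e u).coeff (6 * N - 1)) = 0)

end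

section
variable {K : Type} [Field K] [NumberField K] {g N D : ℕ} (ω : Fin g → 𝓞 K) (e : Fin D ≃ Index N)

/-- The residue field of the prime ideal `v`. -/
def Residue (v : HeightOneSpectrum (𝓞 K)) : Type := 𝓞 K ⧸ v.asIdeal

noncomputable instance (v : HeightOneSpectrum (𝓞 K)) : Field (Residue v) :=
  haveI : v.asIdeal.IsMaximal := v.isMaximal
  Ideal.Quotient.field v.asIdeal

/-- The reduction modulo `v`. -/
noncomputable def reduction (v : HeightOneSpectrum (𝓞 K)) : 𝓞 K →+* Residue v := Ideal.Quotient.mk v.asIdeal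

/-- The absolute norm `q_v` of the prime ideal `v`. -/
noncomputable def norm (v : HeightOneSpectrum (𝓞 K)) : ℝ := Ideal.absNorm v.asIdeal

/-- The reduction of the surface modulo `v` is smooth. -/
def IsGood (m : Fin (D * g) → ℕ) (v : HeightOneSpectrum (𝓞 K)) : Prop :=
  Smooth e (Residue v) (fun k => reduction v (coeff ω m k))

/-- The trace `b_v` of the Frobenius automorphism on `H ^ 2(V)` at a prime ideal `v` of good reduction: the number of the points of
the reduction of `V` is `1 + b_v + q_v ^ 2`. -/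
noncomputable def b (m : Fin (D * g) → ℕ) (v : HeightOneSpectrum (𝓞 K)) : ℝ :=
  points e (Residue v) (fun k => reduction v (coeff ω m k)) - 1 - norm v ^ 2

open Classical in
/-- `b_v` if `|b_v - 2 q_v| ≤ q_v ^ (1 + η)`, and `2 q_v` otherwise. -/
noncomputable def truncated (η : ℝ) (m : Fin (D * g) → ℕ) (v : HeightOneSpectrum (𝓞 K)) : ℝ :=
  if |b ω e m v - 2 * norm v| ≤ norm v ^ (1 + η) then b ω e m v else 2 * norm v

/-- The weighted sum of `b_v log(q_v) / q_v` (with the truncated `b_v`) over the prime ideals of good reduction with `q_v ≤ T`. -/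
noncomputable def tateSum (η : ℝ) (w : HeightOneSpectrum (𝓞 K) → ℝ) (T : ℕ) (m : Fin (D * g) → ℕ) : ℝ :=
  ∑ᶠ v ∈ {v : HeightOneSpectrum (𝓞 K) | IsGood ω e m v ∧ Ideal.absNorm v.asIdeal ≤ T},
    w v * (truncated ω e η m v * Real.log (norm v) / norm v)

/-- The weighted sum of `log(q_v)` over the prime ideals with `q_v ≤ T`. -/
noncomputable def mainSum (w : HeightOneSpectrum (𝓞 K) → ℝ) (T : ℕ) : ℝ :=
  ∑ᶠ v ∈ {v : HeightOneSpectrum (𝓞 K) | Ideal.absNorm v.asIdeal ≤ T}, w v * Real.log (norm v)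

end

/-- The derivatives of the consecutive functions `F t` are separated on `[u, v]` and their second derivatives increase. -/
def Spread (ρ u v : ℝ) (F : ℕ → ℝ → ℝ) : Prop :=
  (∀ t, ContDiff ℝ 2 (F t)) ∧ ∃ t₀ : ℕ, ∀ t, t₀ ≤ t → ∀ x ∈ Set.Icc u v,
    (t : ℝ) ^ (ρ - 1) ≤ deriv (F (t + 1)) x - deriv (F t) x ∧
      deriv (deriv (F t)) x ≤ deriv (deriv (F (t + 1))) x

open Classical in
/-- If the integers `z t j` are nonnegative for all large `t`, then there are `κ > 0` and `y₀` such that for all `y ≥ y₀`, all `N` and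
all sets `W T` of at most `T ^ B` weights with values in `[-1, 1]`, defined on the prime ideals of `K`, all the integers `t` in
`(N, 2 N]` with at most `N / y ^ A` exceptions, and all the primes `t` in `(N, 2 N]` with the exception of at most a proportion
`1 / y ^ A` of them, have the following property: for the surface with the numbers `m j = z t j`, all integers `T` with
`y ≤ T ≤ N ^ κ` and all weights `w ∈ W T` the weighted sum of the numbers `b_v log(q_v) / q_v` over the prime ideals of good reduction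
with `q_v ≤ T` is two times the weighted sum of the numbers `log(q_v)` over the prime ideals with `q_v ≤ T`, up to the error
`T ^ (1 / 2 + η + δ)`. -/
def AlmostAll {K : Type} [Field K] [NumberField K] {g n D : ℕ} (ω : Fin g → 𝓞 K) (e : Fin D ≃ Index n) (δ η : ℝ) (A B : ℕ)
    (z : ℕ → Fin (D * g) → ℤ) : Prop :=
  (∀ᶠ t : ℕ in atTop, ∀ j, 0 ≤ z t j) → ∃ κ : ℝ, 0 < κ ∧ ∃ y₀ : ℕ, ∀ y N : ℕ, y₀ ≤ y →
    ∀ W : ℕ → Set (HeightOneSpectrum (𝓞 K) → ℝ), (∀ T, (W T).Finite ∧ (W T).ncard ≤ T ^ B) → (∀ T, ∀ w ∈ W T, ∀ v, |w v| ≤ 1) →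
      (((Ioc N (2 * N)).filter fun t => ¬ ∀ T : ℕ, y ≤ T → (T : ℝ) ≤ (N : ℝ) ^ κ → ∀ w ∈ W T,
        |tateSum ω e η w T (fun j => (z t j).toNat) - 2 * mainSum w T| ≤ (T : ℝ) ^ (1 / 2 + η + δ)).card : ℝ) ≤ 1 / (y : ℝ) ^ A * N ∧
      ((((Ioc N (2 * N)).filter Nat.Prime).filter fun t => ¬ ∀ T : ℕ, y ≤ T → (T : ℝ) ≤ (N : ℝ) ^ κ → ∀ w ∈ W T,
        |tateSum ω e η w T (fun j => (z t j).toNat) - 2 * mainSum w T| ≤ (T : ℝ) ^ (1 / 2 + η + δ)).card : ℝ) ≤
          1 / (y : ℝ) ^ A * ((Ioc N (2 * N)).filter Nat.Prime).card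

section
variable {K : Type} [Field K] [NumberField K] {g N D : ℕ} (ω : Fin g → 𝓞 K) (e : Fin D ≃ Index N)

/-- the local function -/
noncomputable def Fl (η : ℝ) (κ : Type) [Field κ] (u : Fin D → κ) : ℝ :=
  Pool.Agent.L5helper12.TM.Fv (fun κ _ u => Pool.Agent.L5helper12.ES.Gd e κ u) (fun κ _ u => Pool.Agent.L5helper12.ES.tau e κ u) 2 η κ u

lemma value_eq {κ : Type} [Field κ] (n : ℕ) (P : Polynomial κ) (t : Option κ) : value n P t = Pool.Agent.L5helper12.ES.vl n P t := by
  cases t <;> rfl

lemma points_eq (κ : Type) [Field κ] (u : Fin D → κ) : points e κ u = Pool.Agent.L5helper12.ES.pts e κ u := by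
  unfold points Pool.Agent.L5helper12.ES.pts
  refine finsum_congr fun t => ?_
  unfold fibre Pool.Agent.L5helper12.ES.fib
  simp only [value_eq]
  rfl

lemma norm_pos (v : HeightOneSpectrum (𝓞 K)) : 0 < norm v := by
  unfold norm
  have : Ideal.absNorm v.asIdeal ≠ 0 := by
    rw [Ne, Ideal.absNorm_eq_zero_iff]
    exact v.ne_bot
  exact_mod_cast Nat.pos_of_ne_zero this

lemma b_eq (m : Fin (D * g) → ℕ) (v : HeightOneSpectrum (𝓞 K)) : b ω e m v - 2 * norm v =
    norm v * Pool.Agent.L5helper12.ES.tau e (Pool.Agent.N842.HS.Res v) (fun k => Pool.Agent.N842.HS.rho v (Pool.Agent.N842.HS.cf ω m k)) := by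
  have hq := norm_pos v
  unfold Pool.Agent.L5helper12.ES.tau b
  rw [Pool.Agent.N842.HS.card_Res, points_eq]
  show _ = norm v * ((Pool.Agent.L5helper12.ES.pts e (Residue v) (fun k => reduction v (coeff ω m k)) - 1 - norm v ^ 2 - 2 * norm v) / norm v)
  field_simp

lemma term_eq (η : ℝ) (m : Fin (D * g) → ℕ) (v : HeightOneSpectrum (𝓞 K)) (hv : IsGood ω e m v) :
    truncated ω e η m v * Real.log (norm v) / norm v =
      Fl e η (Pool.Agent.N842.HS.Res v) (fun k => Pool.Agent.N842.HS.rho v (Pool.Agent.N842.HS.cf ω m k)) *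
        Real.log (Ideal.absNorm v.asIdeal) := by
  classical
  have hq := norm_pos v
  have hb := b_eq ω e m v
  obtain ⟨t, ht⟩ : ∃ t : ℝ, t = Pool.Agent.L5helper12.ES.tau e (Pool.Agent.N842.HS.Res v)
    (fun k => Pool.Agent.N842.HS.rho v (Pool.Agent.N842.HS.cf ω m k)) := ⟨_, rfl⟩
  rw [← ht] at hb
  have h1 : |b ω e m v - 2 * norm v| ≤ norm v ^ (1 + η) ↔ |t| ≤ norm v ^ η := by
    rw [hb, abs_mul, abs_of_pos hq, Real.rpow_add hq, Real.rpow_one]
    constructor
    · exact fun h => le_of_mul_le_mul_left h hq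
    · exact fun h => mul_le_mul_of_nonneg_left h hq.le
  have hv' : Pool.Agent.L5helper12.ES.Gd e (Pool.Agent.N842.HS.Res v) (fun k => Pool.Agent.N842.HS.rho v (Pool.Agent.N842.HS.cf ω m k)) := hv
  unfold truncated Fl Pool.Agent.L5helper12.TM.Fv
  rw [if_pos hv']
  beta_reduce
  rw [← ht]
  have hc : (Nat.card (Pool.Agent.N842.HS.Res v) : ℝ) = norm v := by
    rw [Pool.Agent.N842.HS.card_Res]
    rfl
  have hlog : Real.log (Ideal.absNorm v.asIdeal) = Real.log (norm v) := rfl
  rw [hc, hlog]
  by_cases h : |t| ≤ norm v ^ η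
  · rw [if_pos (h1.2 h), if_pos h]
    have h2 : b ω e m v = norm v * (2 + t) := by linarith
    rw [h2]
    field_simp
  · rw [if_neg (fun h' => h (h1.1 h')), if_neg h, add_zero]
    field_simp

lemma sum_eq (η : ℝ) (w : HeightOneSpectrum (𝓞 K) → ℝ) (T : ℕ) (m : Fin (D * g) → ℕ) :
    tateSum ω e η w T m - 2 * mainSum w T = ∑ v ∈ Pool.Agent.N842.HS.VT K T, w v *
      ((Fl e η (Pool.Agent.N842.HS.Res v) (fun k => Pool.Agent.N842.HS.rho v (Pool.Agent.N842.HS.cf ω m k)) - 2) *
        Real.log (Ideal.absNorm v.asIdeal)) := by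
  classical
  have h1 : {v : HeightOneSpectrum (𝓞 K) | IsGood ω e m v ∧ Ideal.absNorm v.asIdeal ≤ T} =
      (((Pool.Agent.N842.HS.VT K T).filter (fun v => IsGood ω e m v) : Finset (HeightOneSpectrum (𝓞 K))) : Set (HeightOneSpectrum (𝓞 K))) := by
    ext v
    rw [mem_coe, mem_filter, Pool.Agent.N842.HS.mem_VT]
    exact and_comm
  have h2 : {v : HeightOneSpectrum (𝓞 K) | Ideal.absNorm v.asIdeal ≤ T} =
      ((Pool.Agent.N842.HS.VT K T : Finset (HeightOneSpectrum (𝓞 K))) : Set (HeightOneSpectrum (𝓞 K))) := by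
    ext v
    rw [mem_coe, Pool.Agent.N842.HS.mem_VT]
    exact Iff.rfl
  unfold tateSum mainSum
  rw [h1, h2, finsum_mem_coe_finset, finsum_mem_coe_finset, sum_filter, mul_sum, ← sum_sub_distrib]
  refine sum_congr rfl fun v _ => ?_
  have hlog : Real.log (Ideal.absNorm v.asIdeal) = Real.log (norm v) := rfl
  by_cases hv : IsGood ω e m v
  · rw [if_pos hv, term_eq ω e η m v hv, hlog]
    ring
  · have hv' : ¬ Pool.Agent.L5helper12.ES.Gd e (Pool.Agent.N842.HS.Res v)
        (fun k => Pool.Agent.N842.HS.rho v (Pool.Agent.N842.HS.cf ω m k)) := hv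
    have h3 : Fl e η (Pool.Agent.N842.HS.Res v) (fun k => Pool.Agent.N842.HS.rho v (Pool.Agent.N842.HS.cf ω m k)) = 0 := if_neg hv'
    rw [if_neg hv, h3, hlog]
    ring

end

/-- **The Tauberian Tate conjecture for elliptic surfaces, for almost all parameters.** Let `K` be a number field,
`ω_0, ..., ω_(g-1)` in `𝓞 K` such that `1` is in the group generated by them, `n ≥ 1` (the degrees of `A` and `B` are at most `4 n` and
`6 n`), `h` an even number with `2 ≤ h ≤ 6 n`, `δ > 0`, `0 < ρ ≤ 1` and integers `A, B ≥ 0`; put `η = 1 / (2 (h - 1))`. The property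
`AlmostAll` holds for almost all members of the following families: (1) the integral parts of `F_j(t) (ξ_j)` for all functions with
separated derivatives, (2) the integral parts of `ξ_j g_j(t) + c_j(t)` for all real sequences `g_j` with
`g_j(t + 1) - g_j(t) ≥ t ^ (ρ - 1)` for large `t` and all real sequences `c_j`, (3) the integral parts of `ξ_j ^ g_j(t) + c_j(t)`,
`ξ_j > 1`, for all strictly increasing sequences `g_j` of natural numbers and all real sequences `c_j`. -/
theorem result (K : Type) [Field K] [NumberField K] (g n D h : ℕ) (ω : Fin g → 𝓞 K)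
    (hω : (1 : 𝓞 K) ∈ Submodule.span ℤ (Set.range ω)) (e : Fin D ≃ Index n) (h2 : 2 ≤ h) (he : Even h) (hn : h ≤ 6 * n)
    (ρ : ℝ) (hρ : 0 < ρ) (hρ1 : ρ ≤ 1) (δ : ℝ) (hδ : 0 < δ) (A B : ℕ) (η : ℝ) (hη : η = 1 / (2 * ((h : ℝ) - 1))) :
    (∀ (u v : Fin (D * g) → ℝ) (F : Fin (D * g) → ℕ → ℝ → ℝ), (∀ j, Spread ρ (u j) (v j) (F j)) →
      ∀ᵐ ξ : Fin (D * g) → ℝ, (∀ j, ξ j ∈ Set.Ioc (u j) (v j)) →
        AlmostAll ω e δ η A B (fun t j => ⌊F j t (ξ j)⌋)) ∧
    (∀ a c : Fin (D * g) → ℕ → ℝ, (∀ j, ∀ᶠ t : ℕ in atTop, (t : ℝ) ^ (ρ - 1) ≤ a j (t + 1) - a j t) →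
      ∀ᵐ ξ : Fin (D * g) → ℝ, AlmostAll ω e δ η A B (fun t j => ⌊ξ j * a j t + c j t⌋)) ∧
    (∀ (a : Fin (D * g) → ℕ → ℕ) (c : Fin (D * g) → ℕ → ℝ), (∀ j, StrictMono (a j)) →
      ∀ᵐ ξ : Fin (D * g) → ℝ, (∀ j, 1 < ξ j) → AlmostAll ω e δ η A B (fun t j => ⌊ξ j ^ a j t + c j t⌋)) := by
  have hg : 0 < g := by
    rcases Nat.eq_zero_or_pos g with h0 | h0
    · subst h0
      rw [Set.range_eq_empty, Submodule.span_empty, Submodule.mem_bot] at hω
      exact absurd hω one_ne_zero
    · exact h0
  have hD : 0 < D := by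
    have h3 : Nonempty (Index n) := ⟨Sum.inl 0⟩
    have h4 : Nonempty (Fin D) := h3.map e.symm
    exact Fin.pos_iff_nonempty.2 h4
  obtain ⟨k, hk⟩ := he
  have hk' : h = 2 * k := by omega
  have hη' : η = 1 / (2 * (2 * (k : ℝ) - 1)) := by
    rw [hη, hk']
    push_cast
    rfl
  have hη0 : 0 ≤ η := by
    rw [hη]
    have h5 : (2 : ℝ) ≤ h := by exact_mod_cast h2
    have h6 : (0 : ℝ) < (h : ℝ) - 1 := by linarith
    positivity
  haveI : Nonempty (Fin (D * g)) := ⟨⟨0, Nat.mul_pos hD hg⟩⟩
  refine Pool.Agent.N54.ME.three hρ hρ1 (AlmostAll ω e δ η A B) fun z hz hpos => ?_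
  have hW : Pool.Agent.N54.MW.WW (fun t j => (z t j).toNat) (Pool.Agent.N54.ME.kap ρ (Fintype.card (Fin (D * g)))) :=
    Pool.Agent.N54.MW.ww_of_ws hz (hpos.mono fun t ht j => (Int.toNat_of_nonneg (ht j)).symm)
  obtain ⟨κ, hκ, y₀, h1⟩ := Pool.Agent.L5helper12.AV.all_v g D ω hω (Nat.mul_pos hD hg)
    (Pool.Agent.N54.ME.kap_pos hρ _) hW δ hδ A B (fun κ _ u => Fl e η κ u) 2 η hη0
    (fun κ κ' _ _ σ u => Pool.Agent.L5helper12.TM.Fv_congr _ _ 2 η κ κ' σ u (Pool.Agent.L5helper12.ES.Gd_congr e σ u)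
      (Pool.Agent.L5helper12.ES.tau_congr e σ u))
    ⟨_, by positivity, fun κ _ _ u => Pool.Agent.L5helper12.TM.Fv_bound _ _ 2 η hη0 κ u⟩
    (Pool.Agent.L5helper12.ES.Fv_mean e k (by omega) (by omega) η hη')
  refine ⟨κ, hκ, y₀, fun y N hy W hW hW1 => ?_⟩
  refine h1 y N hy W hW hW1 (fun m => ∀ T : ℕ, y ≤ T → (T : ℝ) ≤ (N : ℝ) ^ κ → ∀ w ∈ W T,
        |tateSum ω e η w T m - 2 * mainSum w T| ≤ (T : ℝ) ^ (1 / 2 + η + δ)) fun m hm T hyT hTr w hw => ?_
  have h3 := hm T hyT hTr w hw
  rw [sum_eq]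
  exact h3

end Pool.Agent.Results.MP_4589ac_nt.EllipticSurfaces
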