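import Pool.Agent.N842.HS.Srf2

/-!
# The Tauberian Tate conjecture for almost all surfaces in the projective space over a number field which arise from an arbitrary
# surface by changing a few digits of its coefficients

Let `K` be a number field and `ω_0, ..., ω_(g-1)` elements of its ring of integers such that `1` is a linear combination of them with
integral coefficients, for instance an integral basis.  The surface `V` of degree `d` in the projective space of dimension `3` over
`K` is the projective closure of `∑ x_i ^ d + ∑ c_α x ^ α = 0`, where `x = (x_0, x_1, x_2)` and `α` runs through the exponents of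
all monomials of degree less than `d`; the coefficients are `c_α = ∑ m_(α,j) ω_j`.  Here the numbers `m_(α,j)` arise from ARBITRARY
given integers `N_(α,j)`, with at most `L_(α,j)` digits in base `β`, by changing `r_(α,j)` of the digits.  The numbers `r_(α,j)` may
be small compared to `L_(α,j)`, so that the surfaces are very close to the given one, and their number is small compared with the
number of all surfaces with coefficients of this size.

The rank of `NS(V)` is `1` for a general surface of degree `d ≥ 4` (the theorem of Noether and Lefschetz).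

For a prime ideal `v` of good reduction let `b_v` be the trace of the Frobenius automorphism on `H ^ 2(V)`, and `q_v` the absolute norm
of `v`.  By Deligne's theorem `|b_v - q_v| ≤ (b_2(V) - 1) q_v`, so that `|b_v - q_v| ≤ q_v ^ (1 + η)` if `q_v` is larger than a
number which depends only on `d` and `η > 0`.

The theorem is the theorem `Pool.Agent.N842.HS.surf` of the starting library (for surfaces).
-/

set_option autoImplicit false

namespace Pool.Agent.Results.MP_4589ac_nt.FewDigitSurfaces

open Finset NumberField IsDedekindDomain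

/-- The exponents of the monomials of degree less than `d` in the variables `x_0, x_1, x_2`. -/
abbrev Exponent (d : ℕ) : Type := {α : Fin 3 → Fin d // ∑ i, (α i : ℕ) < d}

/-- The coefficients `c_i = ∑ m_(i,j) ω_j`. -/
def coeff {R : Type} [CommRing R] {g D : ℕ} (ω : Fin g → R) (m : Fin (D * g) → ℕ) (i : Fin D) : R :=
  ∑ j, (m (finProdFinEquiv (i, j)) : R) * ω j

section
variable {d D : ℕ} (e : Fin D ≃ Exponent d)

/-- The polynomial `∑ x_i ^ d + ∑ u_k x ^ (e k)` over the field `κ`, where `e` is an enumeration of the exponents. -/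
noncomputable def poly {κ : Type} [Field κ] (u : Fin D → κ) : MvPolynomial (Fin 3) κ :=
  ∑ i, MvPolynomial.X i ^ d + ∑ k, MvPolynomial.C (u k) * ∏ i, MvPolynomial.X i ^ ((e k).1 i : ℕ)

/-- The number of the points over the finite field `κ` with `q` elements of the surface with the coefficients `u`: the number of the
zeros of the polynomial (these are the points outside the plane at infinity), and the number of the nonzero solutions of
`∑ x_i ^ d = 0` divided by `q - 1` (these are the points at infinity). -/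
noncomputable def points (κ : Type) [Field κ] (u : Fin D → κ) : ℝ :=
  (Nat.card {x : Fin 3 → κ // MvPolynomial.eval x (poly e u) = 0} : ℝ) +
    ((Nat.card {x : Fin 3 → κ // ∑ i, x i ^ d = 0} : ℝ) - 1) / ((Nat.card κ : ℝ) - 1)

/-- `d` is not zero in `κ`, and the polynomial and its partial derivatives do not have a common zero over the algebraic closure
of `κ`, so that the surface is smooth. -/
def Smooth (κ : Type) [Field κ] (u : Fin D → κ) : Prop :=
  (d : κ) ≠ 0 ∧ ¬ ∃ x : Fin 3 → AlgebraicClosure κ,
    MvPolynomial.eval x (poly e (fun k => algebraMap κ (AlgebraicClosure κ) (u k))) = 0 ∧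
    ∀ i, MvPolynomial.eval x (MvPolynomial.pderiv i (poly e (fun k => algebraMap κ (AlgebraicClosure κ) (u k)))) = 0

end

section
variable {K : Type} [Field K] [NumberField K] {g d D : ℕ} (ω : Fin g → 𝓞 K) (e : Fin D ≃ Exponent d)

/-- The residue field of the prime ideal `v`. -/
def Residue (v : HeightOneSpectrum (𝓞 K)) : Type := 𝓞 K ⧸ v.asIdeal

noncomputable instance (v : HeightOneSpectrum (𝓞 K)) : Field (Residue v) :=
  haveI : v.asIdeal.IsMaximal := v.isMaximal
  Ideal.Quotient.field v.asIdeal

/-- The reduction modulo `v`. -/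
noncomputable def reduction (v : HeightOneSpectrum (𝓞 K)) : 𝓞 K →+* Residue v := Ideal.Quotient.mk v.asIdeal

/-- The absolute norm `q_v` of the prime ideal `v`. -/
noncomputable def norm (v : HeightOneSpectrum (𝓞 K)) : ℝ := Ideal.absNorm v.asIdeal

/-- The reduction of `V` modulo `v` is smooth. -/
def IsGood (m : Fin (D * g) → ℕ) (v : HeightOneSpectrum (𝓞 K)) : Prop :=
  Smooth e (Residue v) (fun k => reduction v (coeff ω m k))

/-- The trace `b_v` of the Frobenius automorphism on `H ^ 2(V)` at a prime ideal `v` of good reduction: the number of the points of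
the reduction of `V` is `1 + b_v + q_v ^ 2`. -/
noncomputable def b (m : Fin (D * g) → ℕ) (v : HeightOneSpectrum (𝓞 K)) : ℝ :=
  points e (Residue v) (fun k => reduction v (coeff ω m k)) - 1 - norm v ^ 2

open Classical in
/-- `b_v` if `|b_v - q_v| ≤ q_v ^ (1 + η)`, and `q_v` otherwise. -/
noncomputable def truncated (η : ℝ) (m : Fin (D * g) → ℕ) (v : HeightOneSpectrum (𝓞 K)) : ℝ :=
  if |b ω e m v - norm v| ≤ norm v ^ (1 + η) then b ω e m v else norm v

/-- The weighted sum of `b_v log(q_v) / q_v` (with the truncated `b_v`) over the prime ideals of good reduction with `q_v ≤ T`. -/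
noncomputable def tateSum (η : ℝ) (w : HeightOneSpectrum (𝓞 K) → ℝ) (T : ℕ) (m : Fin (D * g) → ℕ) : ℝ :=
  ∑ᶠ v ∈ {v : HeightOneSpectrum (𝓞 K) | IsGood ω e m v ∧ Ideal.absNorm v.asIdeal ≤ T},
    w v * (truncated ω e η m v * Real.log (norm v) / norm v)

/-- The weighted sum of `log(q_v)` over the prime ideals with `q_v ≤ T`. -/
noncomputable def mainSum (w : HeightOneSpectrum (𝓞 K) → ℝ) (T : ℕ) : ℝ :=
  ∑ᶠ v ∈ {v : HeightOneSpectrum (𝓞 K) | Ideal.absNorm v.asIdeal ≤ T}, w v * Real.log (norm v)

end

/-- The digit number `i` (counted from the right, beginning with `0`) of `n` in base `b`. -/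
def digit (b i n : ℕ) : ℕ := n / b ^ i % b

/-- The number which arises from the number `N` with at most `L` digits in base `b`, if for every `i ∈ S`
the digit number `i` is replaced by `f i`. -/
def change (b L N : ℕ) (f : ℕ → ℕ) (S : Finset ℕ) : ℕ :=
  ∑ i ∈ range L, (if i ∈ S then f i else digit b i N) * b ^ i

open Classical in
/-- The number of the choices of `r j` of `L j` positions for all `j` for which the tuple of the numbers obtained by
changing the digits of the `N j` at the chosen positions (according to `f j`) does not have the property `E`. -/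
noncomputable def exceptions {k : ℕ} (b : ℕ) (L r N : Fin k → ℕ) (f : Fin k → ℕ → ℕ) (E : (Fin k → ℕ) → Prop) : ℕ :=
  ((Fintype.piFinset (fun j => powersetCard (r j) (range (L j)))).filter
    (fun S => ¬ E (fun j => change b (L j) (N j) (f j) (S j)))).card

lemma exc_eq {k : ℕ} (b : ℕ) (L r N : Fin k → ℕ) (f : Fin k → ℕ → ℕ) (E : (Fin k → ℕ) → Prop) :
    exceptions b L r N f E = Pool.Agent.Y57.FD.exceptions b L r N f E := rfl

section
variable {K : Type} [Field K] [NumberField K] {g d D : ℕ} (ω : Fin g → 𝓞 K) (e : Fin D ≃ Exponent d)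

lemma norm_pos (v : HeightOneSpectrum (𝓞 K)) : 0 < norm v := by
  unfold norm
  have : Ideal.absNorm v.asIdeal ≠ 0 := by
    rw [Ne, Ideal.absNorm_eq_zero_iff]
    exact v.ne_bot
  exact_mod_cast Nat.pos_of_ne_zero this

lemma good_iff (m : Fin (D * g) → ℕ) (v : HeightOneSpectrum (𝓞 K)) : IsGood ω e m v ↔
    Pool.Agent.N842.HS.Smv (N := 3) e (Pool.Agent.N842.HS.Res v) (fun k => Pool.Agent.N842.HS.rho v (Pool.Agent.N842.HS.cf ω m k)) := Iff.rfl

lemma b_eq (m : Fin (D * g) → ℕ) (v : HeightOneSpectrum (𝓞 K)) : b ω e m v - norm v =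
    norm v * Pool.Agent.N842.HS.trv (N := 3) e (Pool.Agent.N842.HS.Res v) (fun k => Pool.Agent.N842.HS.rho v (Pool.Agent.N842.HS.cf ω m k)) := by
  have hq := norm_pos v
  unfold Pool.Agent.N842.HS.trv
  rw [Pool.Agent.N842.HS.card_Res]
  have h1 : Pool.Agent.N842.HS.pts (N := 3) e (Pool.Agent.N842.HS.Res v) (fun k => Pool.Agent.N842.HS.rho v (Pool.Agent.N842.HS.cf ω m k)) =
    points e (Residue v) (fun k => reduction v (coeff ω m k)) := rfl
  rw [h1]
  show _ = norm v * ((-1) ^ (3 - 1) * ((points e (Residue v) (fun k => reduction v (coeff ω m k)) - ∑ i ∈ range 3, (norm v) ^ i) / Real.sqrt (norm v) ^ (3 - 1)))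
  have h2 : Real.sqrt (norm v) ^ (3 - 1) = norm v := Real.sq_sqrt hq.le
  rw [h2]
  unfold b
  rw [sum_range_succ, sum_range_succ, sum_range_one]
  field_simp
  ring

lemma term_eq (η : ℝ) (m : Fin (D * g) → ℕ) (v : HeightOneSpectrum (𝓞 K)) (hv : IsGood ω e m v) :
    truncated ω e η m v * Real.log (norm v) / norm v =
      (Pool.Agent.N842.HS.F0 (N := 3) e v (Pool.Agent.N842.HS.cf ω m) + Pool.Agent.N842.HS.F1 (N := 3) e η v (Pool.Agent.N842.HS.cf ω m)) *
        Real.log (Ideal.absNorm v.asIdeal) := by
  classical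
  have hq := norm_pos v
  have hb := b_eq ω e m v
  obtain ⟨t, ht⟩ : ∃ t : ℝ, t = Pool.Agent.N842.HS.trv (N := 3) e (Pool.Agent.N842.HS.Res v)
    (fun k => Pool.Agent.N842.HS.rho v (Pool.Agent.N842.HS.cf ω m k)) := ⟨_, rfl⟩
  rw [← ht] at hb
  have h1 : |b ω e m v - norm v| ≤ norm v ^ (1 + η) ↔ |t| ≤ norm v ^ η := by
    rw [hb, abs_mul, abs_of_pos hq, Real.rpow_add hq, Real.rpow_one]
    constructor
    · exact fun h => le_of_mul_le_mul_left h hq
    · exact fun h => mul_le_mul_of_nonneg_left h hq.le
  unfold truncated Pool.Agent.N842.HS.F0 Pool.Agent.N842.HS.F1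
  rw [if_pos ((good_iff ω e m v).1 hv), ← ht]
  have hc : (Nat.card (Pool.Agent.N842.HS.Res v) : ℝ) = norm v := by
    rw [Pool.Agent.N842.HS.card_Res]
    rfl
  have hlog : Real.log (Ideal.absNorm v.asIdeal) = Real.log (norm v) := rfl
  rw [hc, hlog]
  by_cases h : |t| ≤ norm v ^ η
  · rw [if_pos (h1.2 h), if_pos ⟨(good_iff ω e m v).1 hv, h⟩]
    have h2 : b ω e m v = norm v * (1 + t) := by linarith
    rw [h2]
    field_simp
  · rw [if_neg (fun h' => h (h1.1 h')), if_neg (fun h' => h h'.2), add_zero, one_mul]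
    field_simp

lemma sum_eq (η : ℝ) (w : HeightOneSpectrum (𝓞 K) → ℝ) (T : ℕ) (m : Fin (D * g) → ℕ) :
    tateSum ω e η w T m - mainSum w T = ∑ v ∈ Pool.Agent.N842.HS.VT K T, w v *
      ((Pool.Agent.N842.HS.F0 (N := 3) e v (Pool.Agent.N842.HS.cf ω m) + Pool.Agent.N842.HS.F1 (N := 3) e η v (Pool.Agent.N842.HS.cf ω m) - 1) *
        Real.log (Ideal.absNorm v.asIdeal)) := by
  classical
  have h1 : {v : HeightOneSpectrum (𝓞 K) | IsGood ω e m v ∧ Ideal.absNorm v.asIdeal ≤ T} =
      (((Pool.Agent.N842.HS.VT K T).filter (fun v => IsGood ω e m v) : Finset (HeightOneSpectrum (𝓞 K))) : Set (HeightOneSpectrum (𝓞 K))) := by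
    ext v
    rw [mem_coe, mem_filter, Pool.Agent.N842.HS.mem_VT]
    exact and_comm
  have h2 : {v : HeightOneSpectrum (𝓞 K) | Ideal.absNorm v.asIdeal ≤ T} =
      ((Pool.Agent.N842.HS.VT K T : Finset (HeightOneSpectrum (𝓞 K))) : Set (HeightOneSpectrum (𝓞 K))) := by
    ext v
    rw [mem_coe, Pool.Agent.N842.HS.mem_VT]
    exact Iff.rfl
  unfold tateSum mainSum
  rw [h1, h2, finsum_mem_coe_finset, finsum_mem_coe_finset, sum_filter, ← sum_sub_distrib]
  refine sum_congr rfl fun v _ => ?_
  by_cases hv : IsGood ω e m v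
  · rw [if_pos hv, term_eq ω e η m v hv]
    unfold norm
    ring
  · have h3 : Pool.Agent.N842.HS.F0 (N := 3) e v (Pool.Agent.N842.HS.cf ω m) = 0 := if_neg hv
    have h4 : Pool.Agent.N842.HS.F1 (N := 3) e η v (Pool.Agent.N842.HS.cf ω m) = 0 := if_neg (fun h => hv h.1)
    rw [if_neg hv, h3, h4]
    unfold norm
    ring

end

open Classical in
/-- Let `K` be a number field, `ω_0, ..., ω_(g-1)` in `𝓞 K` such that `1` is in the group generated by them, and let a degree `d`, an
even number `h` with `2 ≤ h ≤ d`, a base `β ≥ 2`, `δ > 0` and integers `A, B ≥ 0` be given; put `η = 1 / (2 (h - 1))`. Let `D` be the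
number of the monomials of degree less than `d` in three variables. There are `c > 0` and `y₀` such that for all `y ≥ y₀` and all
`L j`, `r j` with `2 r j ≤ L j` the following holds.

Let arbitrary integers `N j` (`j < D g`) with at most `L j` digits in base `β` be given, and for every `j` and every position `i` a
digit `f j i` which is different from the digit of `N j` at this position. Let for every `T` an arbitrary set `W T` of at most `T ^ B`
weights with values in `[-1, 1]`, defined on the prime ideals of `K`, be given. Then for all but a proportion `1 / y ^ A` of the choices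
of `r j` positions (for all `j < D g`) the surface `V` over `K` with the numbers `m j` which arise from the `N j` by changing the
digits at the chosen positions to the digits `f j i` has the following property: for all integers `T` with `y ≤ T ≤ exp (c r j)` for
all `j` and all weights `w ∈ W T` the weighted sum of the numbers `b_v log(q_v) / q_v` over the prime ideals of good reduction with
`q_v ≤ T` is the weighted sum of the numbers `log(q_v)` over the prime ideals with `q_v ≤ T`, up to the error `T ^ (1 / 2 + η + δ)`. -/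
theorem result (K : Type) [Field K] [NumberField K] (β g d D h : ℕ) (hβ : 2 ≤ β) (ω : Fin g → 𝓞 K)
    (hω : (1 : 𝓞 K) ∈ Submodule.span ℤ (Set.range ω)) (e : Fin D ≃ Exponent d) (h2 : 2 ≤ h) (he : Even h) (hd : h ≤ d)
    (δ : ℝ) (hδ : 0 < δ) (A B : ℕ) (η : ℝ) (hη : η = 1 / (2 * ((h : ℝ) - 1))) :
    ∃ c : ℝ, 0 < c ∧ ∃ y₀ : ℕ, ∀ (L r : Fin (D * g) → ℕ) (y : ℕ), (∀ j, 2 * r j ≤ L j) → y₀ ≤ y →
    ∀ N : Fin (D * g) → ℕ, (∀ j, N j < β ^ L j) →
    ∀ f : Fin (D * g) → ℕ → ℕ, (∀ j i, f j i < β ∧ f j i ≠ digit β i (N j)) →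
    ∀ W : ℕ → Set (HeightOneSpectrum (𝓞 K) → ℝ), (∀ T, (W T).Finite ∧ (W T).ncard ≤ T ^ B) → (∀ T, ∀ w ∈ W T, ∀ v, |w v| ≤ 1) →
      (exceptions β L r N f (fun m => ∀ T : ℕ, y ≤ T → (∀ j, (T : ℝ) ≤ Real.exp (c * r j)) → ∀ w ∈ W T,
        |tateSum ω e η w T m - mainSum w T| ≤ (T : ℝ) ^ (1 / 2 + η + δ)) : ℝ) ≤
          1 / (y : ℝ) ^ A * ∏ j, ((L j).choose (r j) : ℝ) := by
  have hg : 0 < g := by
    rcases Nat.eq_zero_or_pos g with h0 | h0
    · subst h0
      rw [Set.range_eq_empty, Submodule.span_empty, Submodule.mem_bot] at hω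
      exact absurd hω one_ne_zero
    · exact h0
  obtain ⟨c, hc, y₀, h1⟩ := Pool.Agent.N842.HS.surf (N := 3) e (by norm_num) (by omega) β g h ω hω hg hβ h2 he hd δ hδ A B
  refine ⟨c, hc, y₀, fun L r y hrL hy N hN f hf W hW hW1 => ?_⟩
  rw [exc_eq]
  refine h1 L r y hrL hy N hN f hf W hW hW1 (fun m => ∀ T : ℕ, y ≤ T → (∀ j, (T : ℝ) ≤ Real.exp (c * r j)) → ∀ w ∈ W T,
        |tateSum ω e η w T m - mainSum w T| ≤ (T : ℝ) ^ (1 / 2 + η + δ)) fun m hm T hyT hTr w hw => ?_
  have h3 := hm T hyT hTr w hw
  rw [sum_eq, hη]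
  exact h3

end Pool.Agent.Results.MP_4589ac_nt.FewDigitSurfaces
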