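import Pool.Agent.L5helper12.JVc
import Pool.Agent.L5helper12.AV

/-!
# The Tauberian Tate conjecture for almost all hyperelliptic Jacobians, and products of Jacobians and curves, over a number field

Let `K` be a number field and `ω_0, ..., ω_(g-1)` elements of its ring of integers such that `1` is a linear combination of them with
integral coefficients, for instance an integral basis. For `i < r` let `n_i ≥ 3` be odd, `C_i` the hyperelliptic curve
`y ^ 2 = x ^ (n_i) + ∑_(k < n_i) c_(i,k) x ^ k` over `K` of genus `(n_i - 1) / 2`, and `V = ∏ V_i`, where `V_i` is the Jacobian of `C_i`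
if `jac i`, and the curve `C_i` itself otherwise. For instance `V` is the Jacobian of one curve (`r = 1`), an abelian surface if
`n_0 = 5`, or a product of elliptic curves (`n_i = 3`). The coefficients are `c_(i,k) = ∑ m_(i,k,j) ω_j`. Here `m_(i,k,j)` are, for
example, the integral parts of

* `ξ_(i,k,j) g_(i,k,j)(t) + c_(i,k,j)(t)` for any real sequences `g` with `g(t + 1) - g(t) ≥ t ^ (ρ - 1)` (for instance `t`, `t ^ 2`, `√t`,
  `2 ^ t`, `t !`, the primes) and any real sequences `c`, for almost all real vectors `ξ`, or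
* `ξ_(i,k,j) ^ g_(i,k,j)(t) + c_(i,k,j)(t)` with strictly increasing integers `g(t)`, for almost all vectors `ξ` with `ξ_(i,k,j) > 1`,

and so for almost all members of all families of twice continuously differentiable functions whose derivatives are separated
(`Spread`). There is one parameter `t` only, and the sequences can grow arbitrarily fast.

The cohomology: `H ^ 2(V)` is the sum of the spaces `H ^ 2(V_i)` and `H ^ 1(V_i) ⊗ H ^ 1(V_j)`, `i < j`; `H ^ 1(V_i) = H ^ 1(C_i)`;
`H ^ 2(V_i)` is the exterior square of `H ^ 1(C_i)` if `V_i` is the Jacobian, and one-dimensional with Frobenius eigenvalue `q` if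
`V_i = C_i`. The rank of `NS(V)` is `r` for general `c`.

Method: the traces are bounded by Weil's theorem (library `Pool.Agent.H341R2`, `Pool.Agent.H126T`); their mean value over the
curves over a finite prime field is computed from the counts over this field and its quadratic extension (`Pool.Agent.L5helper12.JVc`);
high moments over well distributed sequences (`Pool.Agent.N54.MW.genVT`, after helper647 and helper668).
-/

set_option autoImplicit false

namespace Pool.Agent.Results.MP_4589ac_nt.HyperellipticJacobians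

open Finset NumberField IsDedekindDomain Filter MeasureTheory

/-- The indices `(i, k)` of the coefficients. -/
abbrev Index (r : ℕ) (n : Fin r → ℕ) : Type := Σ i : Fin r, Fin (n i)

/-- The coefficients `c_s = ∑ m_(s,j) ω_j`. -/
def coeff {R : Type} [CommRing R] {g D : ℕ} (ω : Fin g → R) (m : Fin (D * g) → ℕ) (s : Fin D) : R :=
  ∑ j, (m (finProdFinEquiv (s, j)) : R) * ω j

section
variable {r D : ℕ} {n : Fin r → ℕ} (e : Fin D ≃ Index r n)

/-- The polynomial `x ^ (n_i) + ∑ u_(i,k) x ^ k` over the field `κ`, where `e` is an enumeration of the indices `(i, k)`. -/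
noncomputable def poly {κ : Type} [Field κ] (u : Fin D → κ) (i : Fin r) : Polynomial κ :=
  Polynomial.X ^ n i + ∑ k : Fin (n i), Polynomial.C (u (e.symm ⟨i, k⟩)) * Polynomial.X ^ (k : ℕ)

/-- The number of the points of the curve `C_i` over the extension of degree `m` of the finite field `κ` with `q` elements: the number
of the solutions of `y ^ 2 = f_i(x)` in the algebraic closure with `x ^ (q ^ m) = x` and `y ^ (q ^ m) = y`, and one point at
infinity. -/
noncomputable def points (κ : Type) [Field κ] (u : Fin D → κ) (i : Fin r) (m : ℕ) : ℝ :=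
  (Nat.card {P : AlgebraicClosure κ × AlgebraicClosure κ // P.1 ^ (Nat.card κ ^ m) = P.1 ∧ P.2 ^ (Nat.card κ ^ m) = P.2 ∧
    P.2 ^ 2 = Polynomial.aeval P.1 (poly e u i)} : ℝ) + 1

/-- The trace of the `m`-th power of the Frobenius automorphism on `H ^ 1(C_i)`. -/
noncomputable def traceH1 (κ : Type) [Field κ] (u : Fin D → κ) (i : Fin r) (m : ℕ) : ℝ :=
  (Nat.card κ : ℝ) ^ m + 1 - points e κ u i m

open Classical in
/-- The trace of the Frobenius automorphism `φ` on `H ^ 2(V)`. On the exterior square of `H ^ 1(C_i)` it is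
`((tr φ) ^ 2 - tr (φ ^ 2)) / 2`, on the tensor product of two spaces it is the product of the traces. -/
noncomputable def traceH2 (jac : Fin r → Prop) (κ : Type) [Field κ] (u : Fin D → κ) : ℝ :=
  ∑ i, (if jac i then ((traceH1 e κ u i 1) ^ 2 - traceH1 e κ u i 2) / 2 else (Nat.card κ : ℝ)) +
    ∑ p ∈ (univ : Finset (Fin r × Fin r)).filter (fun p => p.1 < p.2), traceH1 e κ u p.1 1 * traceH1 e κ u p.2 1

/-- The characteristic of `κ` is not two and the polynomials are separable, so that the curves are smooth. -/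
def Smooth (κ : Type) [Field κ] (u : Fin D → κ) : Prop := (2 : κ) ≠ 0 ∧ ∀ i, (poly e u i).Separable

end

section
variable {K : Type} [Field K] [NumberField K] {g r D : ℕ} {n : Fin r → ℕ} (ω : Fin g → 𝓞 K) (e : Fin D ≃ Index r n)

/-- The residue field of the prime ideal `v`. -/
def Residue (v : HeightOneSpectrum (𝓞 K)) : Type := 𝓞 K ⧸ v.asIdeal

noncomputable instance (v : HeightOneSpectrum (𝓞 K)) : Field (Residue v) :=
  haveI : v.asIdeal.IsMaximal := v.isMaximal
  Ideal.Quotient.field v.asIdeal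

/-- The reduction modulo `v`. -/
noncomputable def reduction (v : HeightOneSpectrum (𝓞 K)) : 𝓞 K →+* Residue v := Ideal.Quotient.mk v.asIdeal

/-- The absolute norm `q_v` of the prime ideal `v`. -/
noncomputable def norm (v : HeightOneSpectrum (𝓞 K)) : ℝ := Ideal.absNorm v.asIdeal

/-- The reductions of the equations of the curves modulo `v` are smooth curves. -/
def IsGood (m : Fin (D * g) → ℕ) (v : HeightOneSpectrum (𝓞 K)) : Prop :=
  Smooth e (Residue v) (fun k => reduction v (coeff ω m k))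

/-- The trace `b_v` of the Frobenius automorphism on `H ^ 2(V)` at a prime ideal `v` of good reduction. -/
noncomputable def b (jac : Fin r → Prop) (m : Fin (D * g) → ℕ) (v : HeightOneSpectrum (𝓞 K)) : ℝ :=
  traceH2 e jac (Residue v) (fun k => reduction v (coeff ω m k))

/-- The weighted sum of `b_v log(q_v) / q_v` over the prime ideals of good reduction with `q_v ≤ T`. -/
noncomputable def tateSum (jac : Fin r → Prop) (w : HeightOneSpectrum (𝓞 K) → ℝ) (T : ℕ) (m : Fin (D * g) → ℕ) : ℝ :=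
  ∑ᶠ v ∈ {v : HeightOneSpectrum (𝓞 K) | IsGood ω e m v ∧ Ideal.absNorm v.asIdeal ≤ T},
    w v * (b ω e jac m v * Real.log (norm v) / norm v)

/-- The weighted sum of `log(q_v)` over the prime ideals with `q_v ≤ T`. -/
noncomputable def mainSum (w : HeightOneSpectrum (𝓞 K) → ℝ) (T : ℕ) : ℝ :=
  ∑ᶠ v ∈ {v : HeightOneSpectrum (𝓞 K) | Ideal.absNorm v.asIdeal ≤ T}, w v * Real.log (norm v)

end

/-- The derivatives of the consecutive functions `F t` are separated on `[u, v]` and their second derivatives increase. -/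
def Spread (ρ u v : ℝ) (F : ℕ → ℝ → ℝ) : Prop :=
  (∀ t, ContDiff ℝ 2 (F t)) ∧ ∃ t₀ : ℕ, ∀ t, t₀ ≤ t → ∀ x ∈ Set.Icc u v,
    (t : ℝ) ^ (ρ - 1) ≤ deriv (F (t + 1)) x - deriv (F t) x ∧
      deriv (deriv (F t)) x ≤ deriv (deriv (F (t + 1))) x

open Classical in
/-- If the integers `z t j` are nonnegative for all large `t`, then there are `κ > 0` and `y₀` such that for all `y ≥ y₀`, all `N` and
all sets `W T` of at most `T ^ B` weights with values in `[-1, 1]`, defined on the prime ideals of `K`, all the integers `t` in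
`(N, 2 N]` with at most `N / y ^ A` exceptions, and all the primes `t` in `(N, 2 N]` with the exception of at most a proportion
`1 / y ^ A` of them, have the following property: for the variety `V` with the numbers `m j = z t j`, all integers `T` with
`y ≤ T ≤ N ^ κ` and all weights `w ∈ W T` the weighted sum of the numbers `b_v log(q_v) / q_v` over the prime ideals of good reduction
with `q_v ≤ T` is `r` times the weighted sum of the numbers `log(q_v)` over the prime ideals with `q_v ≤ T`, up to the error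
`T ^ (1 / 2 + δ)`. -/
def AlmostAll {K : Type} [Field K] [NumberField K] {g r D : ℕ} {n : Fin r → ℕ} (ω : Fin g → 𝓞 K) (e : Fin D ≃ Index r n)
    (jac : Fin r → Prop) (δ : ℝ) (A B : ℕ) (z : ℕ → Fin (D * g) → ℤ) : Prop :=
  (∀ᶠ t : ℕ in atTop, ∀ j, 0 ≤ z t j) → ∃ κ : ℝ, 0 < κ ∧ ∃ y₀ : ℕ, ∀ y N : ℕ, y₀ ≤ y →
    ∀ W : ℕ → Set (HeightOneSpectrum (𝓞 K) → ℝ), (∀ T, (W T).Finite ∧ (W T).ncard ≤ T ^ B) → (∀ T, ∀ w ∈ W T, ∀ v, |w v| ≤ 1) →
      (((Ioc N (2 * N)).filter fun t => ¬ ∀ T : ℕ, y ≤ T → (T : ℝ) ≤ (N : ℝ) ^ κ → ∀ w ∈ W T,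
        |tateSum ω e jac w T (fun j => (z t j).toNat) - r * mainSum w T| ≤ (T : ℝ) ^ (1 / 2 + δ)).card : ℝ) ≤ 1 / (y : ℝ) ^ A * N ∧
      ((((Ioc N (2 * N)).filter Nat.Prime).filter fun t => ¬ ∀ T : ℕ, y ≤ T → (T : ℝ) ≤ (N : ℝ) ^ κ → ∀ w ∈ W T,
        |tateSum ω e jac w T (fun j => (z t j).toNat) - r * mainSum w T| ≤ (T : ℝ) ^ (1 / 2 + δ)).card : ℝ) ≤
          1 / (y : ℝ) ^ A * ((Ioc N (2 * N)).filter Nat.Prime).card

section
variable {K : Type} [Field K] [NumberField K] {g r D : ℕ} {n : Fin r → ℕ} (ω : Fin g → 𝓞 K) (e : Fin D ≃ Index r n)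

lemma traceH1_eq (κ : Type) [Field κ] (u : Fin D → κ) (i : Fin r) (m : ℕ) :
    traceH1 e κ u i m = Pool.Agent.L5helper12.JV.tr e κ u i m := by
  unfold traceH1 Pool.Agent.L5helper12.JV.tr points Pool.Agent.H126T.affPts
  have h : {P : AlgebraicClosure κ × AlgebraicClosure κ // P.1 ^ (Nat.card κ ^ m) = P.1 ∧ P.2 ^ (Nat.card κ ^ m) = P.2 ∧
      P.2 ^ 2 = Polynomial.aeval P.1 (poly e u i)} =
    {P : AlgebraicClosure κ × AlgebraicClosure κ // P.1 ^ (Nat.card κ ^ m) = P.1 ∧ P.2 ^ (Nat.card κ ^ m) = P.2 ∧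
      algebraMap κ (AlgebraicClosure κ) 1 * P.2 ^ 2 = Polynomial.aeval P.1 (Pool.Agent.L5helper12.JV.fp e u i)} := by
    congr 1
    funext P
    rw [map_one, one_mul]
    rfl
  rw [h]

lemma traceH2_eq (jac : Fin r → Prop) (κ : Type) [Field κ] (u : Fin D → κ) :
    traceH2 e jac κ u = Pool.Agent.L5helper12.JV.b2 e jac κ u := by
  unfold traceH2 Pool.Agent.L5helper12.JV.b2
  simp only [traceH1_eq]

lemma norm_pos (v : HeightOneSpectrum (𝓞 K)) : 0 < norm v := by
  unfold norm
  have : Ideal.absNorm v.asIdeal ≠ 0 := by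
    rw [Ne, Ideal.absNorm_eq_zero_iff]
    exact v.ne_bot
  exact_mod_cast Nat.pos_of_ne_zero this

lemma sum_eq (jac : Fin r → Prop) (w : HeightOneSpectrum (𝓞 K) → ℝ) (T : ℕ) (m : Fin (D * g) → ℕ) :
    tateSum ω e jac w T m - r * mainSum w T = ∑ v ∈ Pool.Agent.N842.HS.VT K T, w v *
      ((Pool.Agent.L5helper12.JV.Fb e jac (Pool.Agent.N842.HS.Res v) (fun k => Pool.Agent.N842.HS.rho v (Pool.Agent.N842.HS.cf ω m k)) - r) *
        Real.log (Ideal.absNorm v.asIdeal)) := by
  classical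
  have h1 : {v : HeightOneSpectrum (𝓞 K) | IsGood ω e m v ∧ Ideal.absNorm v.asIdeal ≤ T} =
      (((Pool.Agent.N842.HS.VT K T).filter (fun v => IsGood ω e m v) : Finset (HeightOneSpectrum (𝓞 K))) : Set (HeightOneSpectrum (𝓞 K))) := by
    ext v
    rw [mem_coe, mem_filter, Pool.Agent.N842.HS.mem_VT]
    exact and_comm
  have h2 : {v : HeightOneSpectrum (𝓞 K) | Ideal.absNorm v.asIdeal ≤ T} =
      ((Pool.Agent.N842.HS.VT K T : Finset (HeightOneSpectrum (𝓞 K))) : Set (HeightOneSpectrum (𝓞 K))) := by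
    ext v
    rw [mem_coe, Pool.Agent.N842.HS.mem_VT]
    exact Iff.rfl
  unfold tateSum mainSum
  rw [h1, h2, finsum_mem_coe_finset, finsum_mem_coe_finset, sum_filter, mul_sum, ← sum_sub_distrib]
  refine sum_congr rfl fun v _ => ?_
  have hq := norm_pos v
  have hlog : Real.log (Ideal.absNorm v.asIdeal) = Real.log (norm v) := rfl
  by_cases hv : IsGood ω e m v
  · have h3 : Pool.Agent.L5helper12.JV.Fb e jac (Pool.Agent.N842.HS.Res v) (fun k => Pool.Agent.N842.HS.rho v (Pool.Agent.N842.HS.cf ω m k)) =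
        b ω e jac m v / norm v := by
      unfold Pool.Agent.L5helper12.JV.Fb
      have hv' : Pool.Agent.L5helper12.JV.Gd e (Pool.Agent.N842.HS.Res v) (fun k => Pool.Agent.N842.HS.rho v (Pool.Agent.N842.HS.cf ω m k)) := hv
      rw [if_pos hv', Pool.Agent.N842.HS.card_Res]
      have hb : b ω e jac m v = Pool.Agent.L5helper12.JV.b2 e jac (Pool.Agent.N842.HS.Res v)
          (fun k => Pool.Agent.N842.HS.rho v (Pool.Agent.N842.HS.cf ω m k)) := traceH2_eq e jac _ _
      rw [hb]
      rfl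
    rw [if_pos hv, h3, hlog]
    ring
  · have h3 : Pool.Agent.L5helper12.JV.Fb e jac (Pool.Agent.N842.HS.Res v) (fun k => Pool.Agent.N842.HS.rho v (Pool.Agent.N842.HS.cf ω m k)) = 0 :=
      if_neg hv
    rw [if_neg hv, h3, hlog]
    ring

end

/-- **The Tauberian Tate conjecture for hyperelliptic Jacobians and their products, for almost all parameters.** Let `K` be a number
field, `ω_0, ..., ω_(g-1)` in `𝓞 K` such that `1` is in the group generated by them, `r ≥ 1`, `n_i ≥ 3` odd for `i < r`, and `jac` a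
set of indices; let `δ > 0`, `0 < ρ ≤ 1` and integers `A, B ≥ 0` be given. The property `AlmostAll` holds for almost all members of the
following families: (1) the integral parts of `F_j(t) (ξ_j)` for all functions with separated derivatives, (2) the integral parts of
`ξ_j g_j(t) + c_j(t)` for all real sequences `g_j` with `g_j(t + 1) - g_j(t) ≥ t ^ (ρ - 1)` for large `t` and all real sequences `c_j`,
(3) the integral parts of `ξ_j ^ g_j(t) + c_j(t)`, `ξ_j > 1`, for all strictly increasing sequences `g_j` of natural numbers and all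
real sequences `c_j`. -/
theorem result (K : Type) [Field K] [NumberField K] (g r D : ℕ) (n : Fin r → ℕ) (ω : Fin g → 𝓞 K)
    (hω : (1 : 𝓞 K) ∈ Submodule.span ℤ (Set.range ω)) (e : Fin D ≃ Index r n) (hr : 0 < r) (hodd : ∀ i, Odd (n i)) (hn : ∀ i, 3 ≤ n i)
    (jac : Fin r → Prop) (ρ : ℝ) (hρ : 0 < ρ) (hρ1 : ρ ≤ 1) (δ : ℝ) (hδ : 0 < δ) (A B : ℕ) :
    (∀ (u v : Fin (D * g) → ℝ) (F : Fin (D * g) → ℕ → ℝ → ℝ), (∀ j, Spread ρ (u j) (v j) (F j)) →
      ∀ᵐ ξ : Fin (D * g) → ℝ, (∀ j, ξ j ∈ Set.Ioc (u j) (v j)) →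
        AlmostAll ω e jac δ A B (fun t j => ⌊F j t (ξ j)⌋)) ∧
    (∀ a c : Fin (D * g) → ℕ → ℝ, (∀ j, ∀ᶠ t : ℕ in atTop, (t : ℝ) ^ (ρ - 1) ≤ a j (t + 1) - a j t) →
      ∀ᵐ ξ : Fin (D * g) → ℝ, AlmostAll ω e jac δ A B (fun t j => ⌊ξ j * a j t + c j t⌋)) ∧
    (∀ (a : Fin (D * g) → ℕ → ℕ) (c : Fin (D * g) → ℕ → ℝ), (∀ j, StrictMono (a j)) →
      ∀ᵐ ξ : Fin (D * g) → ℝ, (∀ j, 1 < ξ j) → AlmostAll ω e jac δ A B (fun t j => ⌊ξ j ^ a j t + c j t⌋)) := by
  have hg : 0 < g := by
    rcases Nat.eq_zero_or_pos g with h0 | h0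
    · subst h0
      rw [Set.range_eq_empty, Submodule.span_empty, Submodule.mem_bot] at hω
      exact absurd hω one_ne_zero
    · exact h0
  have hD : 0 < D := by
    have h3 : Nonempty (Index r n) := ⟨⟨⟨0, hr⟩, ⟨0, by have := hn ⟨0, hr⟩; omega⟩⟩⟩
    have h4 : Nonempty (Fin D) := h3.map e.symm
    exact Fin.pos_iff_nonempty.2 h4
  haveI : Nonempty (Fin (D * g)) := ⟨⟨0, Nat.mul_pos hD hg⟩⟩
  refine Pool.Agent.N54.ME.three hρ hρ1 (AlmostAll ω e jac δ A B) fun z hz hpos => ?_
  have hW : Pool.Agent.N54.MW.WW (fun t j => (z t j).toNat) (Pool.Agent.N54.ME.kap ρ (Fintype.card (Fin (D * g)))) :=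
    Pool.Agent.N54.MW.ww_of_ws hz (hpos.mono fun t ht j => (Int.toNat_of_nonneg (ht j)).symm)
  obtain ⟨κ, hκ, y₀, h1⟩ := Pool.Agent.L5helper12.AV.all_v g D ω hω (Nat.mul_pos hD hg)
    (Pool.Agent.N54.ME.kap_pos hρ _) hW δ hδ A B (fun κ _ u => Pool.Agent.L5helper12.JV.Fb e jac κ u) r 0 le_rfl
    (fun κ κ' _ _ σ u => Pool.Agent.L5helper12.JV.Fb_congr e jac κ κ' σ u)
    ⟨_, Pool.Agent.L5helper12.JV.Cb_nonneg, fun κ _ _ u => Pool.Agent.L5helper12.JV.Fb_bound e jac hodd κ u⟩
    (Pool.Agent.L5helper12.JV.Fb_mean e jac hodd fun i => by have := hn i; omega)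
  refine ⟨κ, hκ, y₀, fun y N hy W hW hW1 => ?_⟩
  refine h1 y N hy W hW hW1 (fun m => ∀ T : ℕ, y ≤ T → (T : ℝ) ≤ (N : ℝ) ^ κ → ∀ w ∈ W T,
        |tateSum ω e jac w T m - r * mainSum w T| ≤ (T : ℝ) ^ (1 / 2 + δ)) fun m hm T hyT hTr w hw => ?_
  have h3 := hm T hyT hTr w hw
  rw [sum_eq]
  rw [add_zero] at h3
  exact h3

end Pool.Agent.Results.MP_4589ac_nt.HyperellipticJacobians
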